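import Pool.Agent.Lib.Comp.Oracle

/-!
Joins, approximations with boundedly many changes, uniformly primitive recursive slow
approximations, Lachlan sets.
-/

namespace Pool.Agent.Lib.Comp

open Filter

/-- The join of two Boolean sequences. -/
def J (a b : ℕ → Bool) (m : ℕ) : Bool := cond m.bodd (b m.div2) (a m.div2)

theorem J_even (a b : ℕ → Bool) (m : ℕ) : J a b (2 * m) = a m := by
  simp [J, Nat.bodd_mul, Nat.div2_val]

theorem J_odd (a b : ℕ → Bool) (m : ℕ) : J a b (2 * m + 1) = b m := by
  simp [J, Nat.bodd_mul, Nat.div2_val]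

theorem J_congr {a b a' b' : ℕ → Bool} {k : ℕ} (ha : ∀ x < k, a x = a' x)
    (hb : ∀ x < k, b x = b' x) : ∀ x < k, J a b x = J a' b' x := by
  intro x hx
  have : x.div2 < k := by rw [Nat.div2_val]; omega
  simp only [J, ha _ this, hb _ this]

theorem TLe.left (a b : ℕ → Bool) : TLe a (J a b) := by
  refine TLe.of_search (fun σ z => σ[2 * z]?) (by fun_prop) fun z => ⟨⟨2 * z + 1, ?_⟩, ?_⟩
  · simp
  · intro k c h
    rw [getElem?_res] at h
    split_ifs at h
    rw [J_even] at h
    exact (Option.some.inj h).symm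

theorem TLe.right (a b : ℕ → Bool) : TLe b (J a b) := by
  refine TLe.of_search (fun σ z => σ[2 * z + 1]?) (by fun_prop) fun z => ⟨⟨2 * z + 2, ?_⟩, ?_⟩
  · simp
  · intro k c h
    rw [getElem?_res] at h
    split_ifs at h
    rw [J_odd] at h
    exact (Option.some.inj h).symm

theorem TLe.join {a b D : ℕ → Bool} (ha : TLe a D) (hb : TLe b D) : TLe (J a b) D := by
  obtain ⟨e1, h1⟩ := ha.exists_index
  obtain ⟨e2, h2⟩ := hb.exists_index
  have key : ∀ z, (∃ k s, U (cond z.bodd e2 e1) s (res D k) z.div2 = some (J a b z)) ∧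
      ∀ k s c, U (cond z.bodd e2 e1) s (res D k) z.div2 = some c → c = J a b z := by
    intro z
    unfold J
    cases z.bodd
    · exact h1 _
    · exact h2 _
  refine TLe.of_search (fun σ z => (List.range (σ.length + 1)).findSome? fun k =>
    U (cond z.bodd e2 e1) σ.length (σ.take k) z.div2) (by fun_prop) fun z => ⟨?_, ?_⟩
  · obtain ⟨k, s, h⟩ := (key z).1
    refine ⟨max k s, ?_⟩
    rw [List.findSome?_isSome_iff]
    refine ⟨k, by simp, ?_⟩
    rw [take_res D (le_max_left _ _), length_res, U_mono (le_max_right _ _) h]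
    rfl
  · intro k c h
    obtain ⟨j, hj, h⟩ := List.exists_of_findSome?_eq_some h
    rw [length_res, List.mem_range] at hj
    rw [take_res D (by omega)] at h
    exact (key z).2 _ _ _ h

/-- Two-oracle form of the reduction criterion. -/
theorem TLe.of_search₂ {Y X A D : ℕ → Bool} (hX : TLe X D) (hA : TLe A D)
    (G : List Bool → List Bool → ℕ → Option Bool)
    (hG : Primrec (fun p : List Bool × List Bool × ℕ => G p.1 p.2.1 p.2.2))
    (h : ∀ z, (∃ k, (G (res X k) (res A k) z).isSome) ∧
      ∀ k b, G (res X k) (res A k) z = some b → b = Y z) : TLe Y D := by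
  refine TLe.trans ?_ (hX.join hA)
  have e1 : ∀ k, res (fun i => (res (J X A) k).getD (2 * i) false) (k / 2) = res X (k / 2) := by
    intro k
    apply res_congr
    intro x hx
    rw [getD_res _ (by omega), J_even]
  have e2 : ∀ k, res (fun i => (res (J X A) k).getD (2 * i + 1) false) (k / 2) =
      res A (k / 2) := by
    intro k
    apply res_congr
    intro x hx
    rw [getD_res _ (by omega), J_odd]
  refine TLe.of_search (fun σ z => G (res (fun i => σ.getD (2 * i) false) (σ.length / 2))
    (res (fun i => σ.getD (2 * i + 1) false) (σ.length / 2)) z) ?_ fun z => ⟨?_, ?_⟩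
  · exact hG.comp (g := fun p : List Bool × ℕ =>
      (res (fun i => p.1.getD (2 * i) false) (p.1.length / 2),
        res (fun i => p.1.getD (2 * i + 1) false) (p.1.length / 2), p.2)) (by fun_prop)
  · obtain ⟨k, hk⟩ := (h z).1
    refine ⟨2 * k, ?_⟩
    rw [length_res, e1, e2, show 2 * k / 2 = k by omega]
    exact hk
  · intro k b hb
    rw [length_res, e1, e2] at hb
    exact (h z).2 _ _ hb

/-- The number of changes of `v` before stage `t`. -/
def chg (v : ℕ → Bool) : ℕ → ℕ
  | 0 => 0
  | t + 1 => chg v t + if v t = v (t + 1) then 0 else 1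

theorem chg_mono (v : ℕ → Bool) : Monotone (chg v) :=
  monotone_nat_of_le_succ fun t => by simp [chg]

theorem chg_lt {v : ℕ → Bool} {s t : ℕ} (hst : s ≤ t) (h : v s ≠ v t) : chg v s < chg v t := by
  induction t, hst using Nat.le_induction with
  | base => exact absurd rfl h
  | succ t hst ih =>
    by_cases h1 : v t = v (t + 1)
    · have := ih (by rwa [h1])
      simp [chg, h1, this]
    · have := chg_mono v hst
      simp only [chg, h1, if_false]
      omega

theorem exists_lim_of_chg_le {v : ℕ → Bool} {n : ℕ} (h : ∀ t, chg v t ≤ n) :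
    ∃ b, ∀ᶠ t in atTop, v t = b := by
  classical
  have hex : ∃ m, ∀ t, chg v t ≤ m := ⟨n, h⟩
  have h1 := Nat.find_spec hex
  obtain ⟨s, hs⟩ : ∃ s, chg v s = Nat.find hex := by
    by_contra hne
    push Not at hne
    have h0 : Nat.find hex ≠ 0 := fun e => hne 0 (by rw [e]; rfl)
    have := Nat.find_min hex (m := Nat.find hex - 1) (by omega)
    apply this
    intro t
    have := h1 t
    have := hne t
    omega
  refine ⟨v s, ?_⟩
  filter_upwards [eventually_ge_atTop s] with t ht
  by_contra hne
  have := chg_lt ht (Ne.symm hne)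
  have := h1 t
  omega

/-- `X` has a computable approximation starting at `false` with at most `n` changes. -/
def NCE (n : ℕ) (X : ℕ → Bool) : Prop :=
  ∃ f : ℕ → ℕ → Bool, Computable₂ f ∧
    ∀ x, f x 0 = false ∧ (∀ᶠ s in atTop, f x s = X x) ∧ ∀ t, chg (f x) t ≤ n

theorem NCE.mono {m n : ℕ} {X : ℕ → Bool} (h : NCE m X) (hmn : m ≤ n) : NCE n X := by
  obtain ⟨f, hf, h⟩ := h
  exact ⟨f, hf, fun x => ⟨(h x).1, (h x).2.1, fun t => ((h x).2.2 t).trans hmn⟩⟩

theorem NCE.of_primrec {n : ℕ} {X : ℕ → Bool} (f : ℕ → ℕ → Bool)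
    (hf : Primrec fun p : ℕ × ℕ => f p.1 p.2)
    (h : ∀ x, f x 0 = false ∧ (∀ᶠ s in atTop, f x s = X x) ∧ ∀ t, chg (f x) t ≤ n) : NCE n X :=
  ⟨f, hf.to_comp, h⟩

theorem NCE.join {n : ℕ} {a b : ℕ → Bool} (ha : NCE n a) (hb : NCE n b) : NCE n (J a b) := by
  obtain ⟨f, hf, h⟩ := ha
  obtain ⟨g, hg, h'⟩ := hb
  refine ⟨fun m s => cond m.bodd (g m.div2 s) (f m.div2 s), ?_, fun m => ?_⟩
  · have hd : Computable fun p : ℕ × ℕ => p.1.div2 := Primrec.to_comp (by fun_prop)
    exact Computable.cond (Primrec.to_comp (by fun_prop)) (hg.comp hd Computable.snd)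
      (hf.comp hd Computable.snd)
  · unfold J
    beta_reduce
    cases m.bodd
    · exact h _
    · exact h' _

theorem NCE.zero_le {X : ℕ → Bool} (h : NCE 0 X) (D : ℕ → Bool) : TLe X D := by
  obtain ⟨f, -, h⟩ := h
  have hX : ∀ x, X x = false := by
    intro x
    obtain ⟨h0, h1, h2⟩ := h x
    obtain ⟨s, hs⟩ := h1.exists
    by_contra hne
    have := chg_lt (v := f x) (Nat.zero_le s) (by rw [h0, hs]; exact Ne.symm hne)
    have := h2 s
    omega
  refine TLe.of_search (fun _ _ => some false) (by fun_prop) fun z => ⟨⟨0, rfl⟩, ?_⟩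
  intro k b hb
  rw [hX]
  exact (Option.some.inj hb).symm

/-- Slow simulation of the approximation with index `c`: pointer and current value. -/
def sl (c x t : ℕ) : ℕ × Bool :=
  Nat.rec (motive := fun _ => ℕ × Bool) (0, false)
    (fun t r => (U c t [] (Nat.pair x (r.1 + 1))).elim r fun b => (r.1 + 1, b)) t

/-- The slow approximation with index `c`. -/
def sa (c x t : ℕ) : Bool := (sl c x t).2

@[fun_prop] theorem pr_sa {α : Type*} [Primcodable α] {c x t : α → ℕ} (hc : Primrec c)
    (hx : Primrec x) (ht : Primrec t) : Primrec (fun a => sa (c a) (x a) (t a)) := by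
  unfold sa sl
  fun_prop

theorem sa_zero (c x : ℕ) : sa c x 0 = false := rfl

theorem NCE.exists_slow {n : ℕ} {X : ℕ → Bool} (h : NCE n X) :
    ∃ c, ∀ x, (∀ᶠ s in atTop, sa c x s = X x) ∧ ∀ t, chg (sa c x) t ≤ n := by
  obtain ⟨f, hf, h⟩ := h
  obtain ⟨c, hc⟩ := exists_index_computable (g := fun z => f z.unpair.1 z.unpair.2)
    (hf.comp (Primrec.to_comp (by fun_prop)) (Primrec.to_comp (by fun_prop)))
  refine ⟨c, fun x => ?_⟩
  obtain ⟨h0, h1, h2⟩ := h x
  have step : ∀ t, sl c x (t + 1) = sl c x t ∧ U c t [] (Nat.pair x ((sl c x t).1 + 1)) = none ∨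
      sl c x (t + 1) = ((sl c x t).1 + 1, f x ((sl c x t).1 + 1)) := by
    intro t
    have e : sl c x (t + 1) = (U c t [] (Nat.pair x ((sl c x t).1 + 1))).elim (sl c x t)
      fun b => ((sl c x t).1 + 1, b) := rfl
    cases hU : U c t [] (Nat.pair x ((sl c x t).1 + 1)) with
    | none => left; rw [e, hU]; exact ⟨rfl, rfl⟩
    | some b =>
      right
      have := (hc _).2 _ _ hU
      rw [e, hU, this]
      simp
  have val : ∀ t, sa c x t = f x (sl c x t).1 := by
    intro t
    induction t with
    | zero => exact h0.symm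
    | succ t ih =>
      unfold sa at ih ⊢
      rcases step t with ⟨e, -⟩ | e
      · rw [e, ih]
      · rw [e]
  have hchg : ∀ t, chg (sa c x) t = chg (f x) (sl c x t).1 := by
    intro t
    induction t with
    | zero => rfl
    | succ t ih =>
      rcases step t with ⟨e, -⟩ | e
      · simp only [chg, val, e, ih, if_true, add_zero]
      · simp only [chg, val, e, ih]
  have mono : Monotone fun t => (sl c x t).1 := by
    apply monotone_nat_of_le_succ
    intro t
    rcases step t with ⟨e, -⟩ | e
    · rw [e]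
    · rw [e]; simp
  have unb : ∀ m, ∃ t, m ≤ (sl c x t).1 := by
    intro m
    induction m with
    | zero => exact ⟨0, Nat.zero_le _⟩
    | succ m ih =>
      obtain ⟨t, ht⟩ := ih
      obtain ⟨s, hs⟩ := (hc (Nat.pair x (m + 1))).1
      refine ⟨max s t + 1, ?_⟩
      have h3 : m ≤ (sl c x (max s t)).1 := ht.trans (mono (le_max_right _ _))
      rcases step (max s t) with ⟨e, hU⟩ | e
      · rw [e]
        by_contra hlt
        have h4 : (sl c x (max s t)).1 = m := by omega
        rw [h4, U_mono (le_max_left _ _) hs] at hU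
        exact absurd hU (by simp)
      · rw [e]
        simpa using h3
  refine ⟨?_, fun t => by rw [hchg]; exact h2 _⟩
  have := (tendsto_atTop_atTop_of_monotone mono unb).eventually h1
  filter_upwards [this] with t ht
  rw [val, ht]

/-- The Lachlan set of `X` with respect to the slow approximation `c`. -/
def lach (c : ℕ) (X : ℕ → Bool) (z : ℕ) : Bool := sa c z.unpair.1 z.unpair.2 && !X z.unpair.1

theorem lach_le (c : ℕ) (X : ℕ → Bool) : TLe (lach c X) X := by
  refine TLe.of_search (fun σ z => σ[z.unpair.1]?.map fun b => sa c z.unpair.1 z.unpair.2 && !b)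
    (by fun_prop) fun z => ⟨⟨z.unpair.1 + 1, ?_⟩, ?_⟩
  · simp
  · intro k b h
    rw [getElem?_res] at h
    split_ifs at h
    · exact (Option.some.inj h).symm
    · simp at h

theorem lach_nce {n c : ℕ} {X : ℕ → Bool}
    (h : ∀ x, (∀ᶠ s in atTop, sa c x s = X x) ∧ ∀ t, chg (sa c x) t ≤ n + 1) :
    NCE n (lach c X) := by
  refine NCE.of_primrec (fun z t => leb z.unpair.2 t && (sa c z.unpair.1 z.unpair.2 &&
    !sa c z.unpair.1 t)) (by fun_prop) fun z => ?_
  unfold lach
  generalize z.unpair.1 = x
  generalize z.unpair.2 = s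
  obtain ⟨h1, h2⟩ := h x
  refine ⟨?_, ?_, ?_⟩
  · rcases Nat.eq_zero_or_pos s with rfl | hs
    · simp [sa_zero]
    · have : leb s 0 = false := by simpa using hs
      simp [this]
  · filter_upwards [h1, eventually_ge_atTop s] with t ht hst
    have : leb s t = true := by simpa using hst
    simp [this, ht]
  · cases hs : sa c x s with
    | false =>
      intro t
      have : ∀ t, chg (fun t => leb s t && (false && !sa c x t)) t = 0 := by
        intro t
        induction t with
        | zero => rfl
        | succ t ih => rw [chg, ih]; simp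
      rw [this]
      exact Nat.zero_le _
    | true =>
      have h3 : ∀ t ≤ s, chg (fun t => leb s t && (true && !sa c x t)) t = 0 := by
        have hv : ∀ t ≤ s, (leb s t && (true && !sa c x t)) = false := by
          intro t ht
          rcases ht.lt_or_eq with h | rfl
          · have : leb s t = false := by simpa using h
            simp [this]
          · simp [hs]
        intro t
        induction t with
        | zero => intro _; rfl
        | succ t ih =>
          intro ht
          rw [chg, ih (by omega), hv t (by omega), hv (t + 1) ht]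
          simp
      have h4 : 0 < chg (sa c x) s := by
        have := chg_lt (v := sa c x) (Nat.zero_le s) (by rw [sa_zero, hs]; simp)
        omega
      have h5 : ∀ t, s ≤ t → chg (fun t => leb s t && (true && !sa c x t)) t + 1 ≤
          chg (sa c x) t := by
        intro t ht
        induction t, ht using Nat.le_induction with
        | base => rw [h3 s le_rfl]; omega
        | succ t ht ih =>
          have e1 : leb s t = true := by simpa using ht
          have e2 : leb s (t + 1) = true := by simp; omega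
          simp only [chg, e1, e2, Bool.true_and, Bool.not_inj_iff] at ih ⊢
          omega
      intro t
      rcases le_total t s with h | h
      · rw [h3 t h]; exact Nat.zero_le _
      · have := h5 t h
        have := h2 t
        omega

theorem exists_frequently_of_eventually_bounded {P : ℕ → ℕ → Prop} {T : ℕ}
    (h : ∃ᶠ t in atTop, ∃ s < T, P s t) : ∃ s < T, ∃ᶠ t in atTop, P s t := by
  by_contra hne
  push Not at hne
  have h1 : ∀ s ∈ Finset.range T, ∀ᶠ t in atTop, ¬ P s t := fun s hs =>
    hne s (Finset.mem_range.1 hs)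
  have h2 := (Finset.eventually_all _).2 h1
  obtain ⟨t, ⟨s, hs, hP⟩, ht⟩ := (h.and_eventually h2).exists
  exact ht s (Finset.mem_range.2 hs) hP

theorem eventually_forall_lt {P : ℕ → ℕ → Prop} {T : ℕ}
    (h : ∀ s < T, ∀ᶠ t in atTop, P s t) : ∀ᶠ t in atTop, ∀ s < T, P s t := by
  have h1 : ∀ s ∈ Finset.range T, ∀ᶠ t in atTop, P s t := fun s hs => h s (Finset.mem_range.1 hs)
  filter_upwards [(Finset.eventually_all _).2 h1] with t ht s hs
  exact ht s (Finset.mem_range.2 hs)

end Pool.Agent.Lib.Comp
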