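import Pool.Agent.Lib.Comp.PrimFun

/-!
Turing reducibility of sets: the use principle (normal form through finite initial segments)
and a criterion for building reductions.
-/

namespace Pool.Agent.Lib.Comp

open Filter Encodable

/-- The characteristic function of `D`, as an oracle. -/
def chi (D : ℕ → Bool) : ℕ →. ℕ := fun x => Part.some (cond (D x) 1 0)

/-- Turing reducibility of Boolean sequences. -/
def TLe (X D : ℕ → Bool) : Prop := TuringReducible (chi X) (chi D)

theorem TLe.refl (X : ℕ → Bool) : TLe X X := TuringReducible.refl _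

theorem TLe.trans {X Y Z : ℕ → Bool} (h1 : TLe X Y) (h2 : TLe Y Z) : TLe X Z :=
  TuringReducible.trans h1 h2

/-- The initial segment of length `k`. -/
def res (D : ℕ → Bool) (k : ℕ) : List Bool := (List.range k).map D

@[simp] theorem length_res (D : ℕ → Bool) (k : ℕ) : (res D k).length = k := by simp [res]

theorem getElem?_res (D : ℕ → Bool) (k x : ℕ) :
    (res D k)[x]? = if x < k then some (D x) else none := by
  unfold res
  split_ifs with h
  · simp [h]
  · simp; omega

theorem getD_res (D : ℕ → Bool) {k x : ℕ} (h : x < k) (d : Bool) : (res D k).getD x d = D x := by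
  rw [List.getD_eq_getElem?_getD, getElem?_res, if_pos h, Option.getD_some]

theorem res_succ (D : ℕ → Bool) (k : ℕ) : res D (k + 1) = res D k ++ [D k] := by
  simp [res, List.range_succ]

theorem res_congr {D D' : ℕ → Bool} {k : ℕ} (h : ∀ x < k, D x = D' x) : res D k = res D' k := by
  unfold res
  apply List.map_congr_left
  intro x hx
  exact h x (List.mem_range.1 hx)

theorem res_eq_iff {D D' : ℕ → Bool} {k : ℕ} : res D k = res D' k ↔ ∀ x < k, D x = D' x := by
  refine ⟨fun h x hx => ?_, res_congr⟩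
  rw [← getD_res D hx false, h, getD_res D' hx]

theorem take_res (D : ℕ → Bool) {j k : ℕ} (h : j ≤ k) : (res D k).take j = res D j := by
  unfold res
  rw [← List.map_take, List.take_range, min_eq_left h]

@[fun_prop] theorem pr_res {α : Type*} [Primcodable α] {D : α → ℕ → Bool} {k : α → ℕ}
    (hD : Primrec (fun p : α × ℕ => D p.1 p.2)) (hk : Primrec k) :
    Primrec (fun a => res (D a) (k a)) := by
  unfold res
  fun_prop

theorem use_principle {D : ℕ → Bool} {f : ℕ →. ℕ} (hf : Nat.RecursiveIn {chi D} f) :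
    ∃ F : List Bool → ℕ →. ℕ, Partrec₂ F ∧ (∀ k x y, y ∈ F (res D k) x → y ∈ f x) ∧
      ∀ x y, y ∈ f x → ∀ᶠ k in atTop, y ∈ F (res D k) x := by
  have base : ∀ g : ℕ →. ℕ, Nat.Partrec g → ∃ F : List Bool → ℕ →. ℕ, Partrec₂ F ∧
      (∀ k x y, y ∈ F (res D k) x → y ∈ g x) ∧
      ∀ x y, y ∈ g x → ∀ᶠ k in atTop, y ∈ F (res D k) x := by
    intro g hg
    exact ⟨fun _ x => g x, (Partrec.nat_iff.2 hg).comp Computable.snd, fun _ _ _ h => h,
      fun _ _ h => Eventually.of_forall fun _ => h⟩
  induction hf with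
  | zero => exact base _ Nat.Partrec.zero
  | succ => exact base _ Nat.Partrec.succ
  | left => exact base _ Nat.Partrec.left
  | right => exact base _ Nat.Partrec.right
  | oracle g hg =>
    obtain rfl : g = chi D := hg
    refine ⟨fun σ x => ((σ[x]?.map fun b => cond b 1 0 : Option ℕ) : Part ℕ), ?_, ?_, ?_⟩
    · apply Computable.ofOption
      apply Primrec.to_comp
      fun_prop
    · intro k x y h
      simp only [getElem?_res] at h
      split_ifs at h with hx
      · simpa [chi] using h
      · simp at h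
    · intro x y h
      filter_upwards [eventually_gt_atTop x] with k hk
      rw [getElem?_res, if_pos hk]
      simpa [chi] using h
  | pair _ _ ih1 ih2 =>
    obtain ⟨F1, p1, s1, c1⟩ := ih1
    obtain ⟨F2, p2, s2, c2⟩ := ih2
    refine ⟨fun σ x => (F1 σ x).bind fun a => (F2 σ x).map fun b => Nat.pair a b, ?_, ?_, ?_⟩
    · refine Partrec.bind p1 ?_
      refine Partrec.map (p2.comp (Computable.fst.comp Computable.fst)
        (Computable.snd.comp Computable.fst)) ?_
      apply Primrec.to_comp
      fun_prop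
    · intro k x y h
      simp only [Part.mem_bind_iff, Part.mem_map_iff] at h
      obtain ⟨a, ha, b, hb, rfl⟩ := h
      simp only [Seq.seq, Part.map_eq_map, Part.mem_bind_iff, Part.mem_map_iff]
      exact ⟨_, ⟨a, s1 _ _ _ ha, rfl⟩, b, s2 _ _ _ hb, rfl⟩
    · intro x y h
      simp only [Seq.seq, Part.map_eq_map, Part.mem_bind_iff, Part.mem_map_iff] at h
      obtain ⟨_, ⟨a, ha, rfl⟩, b, hb, rfl⟩ := h
      filter_upwards [c1 _ _ ha, c2 _ _ hb] with k h1 h2
      simp only [Part.mem_bind_iff, Part.mem_map_iff]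
      exact ⟨a, h1, b, h2, rfl⟩
  | comp _ _ ih1 ih2 =>
    obtain ⟨F1, p1, s1, c1⟩ := ih1
    obtain ⟨F2, p2, s2, c2⟩ := ih2
    refine ⟨fun σ x => (F2 σ x).bind fun a => F1 σ a, ?_, ?_, ?_⟩
    · exact Partrec.bind p2 (p1.comp (Computable.fst.comp Computable.fst) Computable.snd)
    · intro k x y h
      simp only [Part.mem_bind_iff] at h
      obtain ⟨a, ha, hb⟩ := h
      simp only [Part.bind_eq_bind, Part.mem_bind_iff]
      exact ⟨a, s2 _ _ _ ha, s1 _ _ _ hb⟩
    · intro x y h
      simp only [Part.bind_eq_bind, Part.mem_bind_iff] at h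
      obtain ⟨a, ha, hb⟩ := h
      filter_upwards [c2 _ _ ha, c1 _ _ hb] with k h1 h2
      simp only [Part.mem_bind_iff]
      exact ⟨a, h1, h2⟩
  | @prec f g _ _ ih1 ih2 =>
    obtain ⟨F1, p1, s1, c1⟩ := ih1
    obtain ⟨F2, p2, s2, c2⟩ := ih2
    refine ⟨fun σ p => Nat.rec (motive := fun _ => Part ℕ) (F1 σ p.unpair.1)
      (fun y IH => IH.bind fun i => F2 σ (Nat.pair p.unpair.1 (Nat.pair y i))) p.unpair.2,
      ?_, ?_, ?_⟩
    · refine Partrec.nat_rec (f := fun q : List Bool × ℕ => q.2.unpair.2)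
        (g := fun q : List Bool × ℕ => F1 q.1 q.2.unpair.1)
        (h := fun (q : List Bool × ℕ) (r : ℕ × ℕ) =>
          F2 q.1 (Nat.pair q.2.unpair.1 (Nat.pair r.1 r.2))) ?_ ?_ ?_
      · apply Primrec.to_comp; fun_prop
      · refine p1.comp Computable.fst ?_
        apply Primrec.to_comp; fun_prop
      · refine p2.comp (Computable.fst.comp Computable.fst) ?_
        apply Primrec.to_comp; fun_prop
    · intro k p y
      simp only
      generalize p.unpair.1 = a
      generalize p.unpair.2 = n
      induction n generalizing y with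
      | zero => exact s1 _ _ _
      | succ n ih =>
        intro h
        simp only [Part.mem_bind_iff] at h
        obtain ⟨i, hi, hy⟩ := h
        simp only [Part.bind_eq_bind, Part.mem_bind_iff]
        exact ⟨i, ih _ hi, s2 _ _ _ hy⟩
    · intro p y
      simp only
      generalize p.unpair.1 = a
      generalize p.unpair.2 = n
      induction n generalizing y with
      | zero => exact c1 _ _
      | succ n ih =>
        intro h
        simp only [Part.bind_eq_bind, Part.mem_bind_iff] at h
        obtain ⟨i, hi, hy⟩ := h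
        filter_upwards [ih _ hi, c2 _ _ hy] with k h1 h2
        simp only [Part.mem_bind_iff]
        exact ⟨i, h1, h2⟩
  | @rfind f _ ih =>
    obtain ⟨F1, p1, s1, c1⟩ := ih
    refine ⟨fun σ a => Nat.rfind fun n => (F1 σ (Nat.pair a n)).map fun m => decide (m = 0),
      ?_, ?_, ?_⟩
    · refine Partrec.rfind (p := fun (q : List Bool × ℕ) n =>
        (F1 q.1 (Nat.pair q.2 n)).map fun m => decide (m = 0)) ?_
      refine Partrec.map (p1.comp (Computable.fst.comp Computable.fst) ?_) ?_
      · apply Primrec.to_comp; fun_prop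
      · apply Primrec.to_comp
        change Primrec fun p : ((List Bool × ℕ) × ℕ) × ℕ => eqb p.2 0
        fun_prop
    · intro k a y h
      simp only [Nat.mem_rfind, Part.mem_map_iff] at h
      simp only [Nat.mem_rfind, Part.map_eq_map, Part.mem_map_iff]
      obtain ⟨⟨b, hb, hb'⟩, h2⟩ := h
      refine ⟨⟨b, s1 _ _ _ hb, hb'⟩, fun {m} hm => ?_⟩
      obtain ⟨b, hb, hb'⟩ := h2 hm
      exact ⟨b, s1 _ _ _ hb, hb'⟩
    · intro a y h
      simp only [Nat.mem_rfind, Part.map_eq_map, Part.mem_map_iff] at h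
      obtain ⟨⟨b, hb, hb'⟩, h2⟩ := h
      have h3 : ∀ m ∈ Finset.range y, ∀ᶠ k in atTop,
          ∃ b ∈ F1 (res D k) (Nat.pair a m), decide (b = 0) = false := by
        intro m hm
        obtain ⟨b, hb, hb'⟩ := h2 (Finset.mem_range.1 hm)
        filter_upwards [c1 _ _ hb] with k hk
        exact ⟨b, hk, hb'⟩
      filter_upwards [c1 _ _ hb, (Finset.eventually_all _).2 h3] with k h1 h4
      simp only [Nat.mem_rfind, Part.mem_map_iff]
      exact ⟨⟨b, h1, hb'⟩, fun {m} hm => h4 m (Finset.mem_range.2 hm)⟩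

/-- The `e`-th functional, run for `s` steps on the finite oracle `σ` and the input `z`. -/
def U (e s : ℕ) (σ : List Bool) (z : ℕ) : Option Bool :=
  (Nat.Partrec.Code.evaln s (Denumerable.ofNat Nat.Partrec.Code e) (encode (σ, z))).map
    fun m => eqb m 1

@[fun_prop] theorem pr_U {α : Type*} [Primcodable α] {e s : α → ℕ} {σ : α → List Bool}
    {z : α → ℕ} (he : Primrec e) (hs : Primrec s) (hσ : Primrec σ) (hz : Primrec z) :
    Primrec (fun a => U (e a) (s a) (σ a) (z a)) := by
  unfold U
  fun_prop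

theorem U_mono {e s t : ℕ} {σ : List Bool} {z : ℕ} {b : Bool} (hst : s ≤ t)
    (h : U e s σ z = some b) : U e t σ z = some b := by
  unfold U at h ⊢
  obtain ⟨m, hm, rfl⟩ := Option.map_eq_some_iff.1 h
  rw [Option.mem_def.1 (Nat.Partrec.Code.evaln_mono hst hm)]
  rfl

theorem exists_U {F : List Bool → ℕ →. ℕ} (hF : Partrec₂ F) :
    ∃ e, ∀ σ z, (∀ s b, U e s σ z = some b → ∃ m ∈ F σ z, b = eqb m 1) ∧
      ∀ m ∈ F σ z, ∃ s, U e s σ z = some (eqb m 1) := by
  obtain ⟨c, hc⟩ := Nat.Partrec.Code.exists_code.1 hF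
  refine ⟨encode c, fun σ z => ⟨fun s b h => ?_, fun m hm => ?_⟩⟩
  · unfold U at h
    obtain ⟨m, hm, rfl⟩ := Option.map_eq_some_iff.1 h
    have h1 := Nat.Partrec.Code.evaln_sound (Option.mem_def.2 hm)
    rw [Denumerable.ofNat_encode, hc] at h1
    simp only [encodek, Part.coe_some, Part.bind_some, Part.mem_map_iff] at h1
    obtain ⟨a, ha, rfl⟩ := h1
    exact ⟨a, ha, rfl⟩
  · have h1 : m ∈ c.eval (encode (σ, z)) := by
      rw [hc]
      simp only [encodek, Part.coe_some, Part.bind_some, Part.mem_map_iff]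
      exact ⟨m, hm, rfl⟩
    obtain ⟨s, hs⟩ := Nat.Partrec.Code.evaln_complete.1 h1
    refine ⟨s, ?_⟩
    unfold U
    rw [Denumerable.ofNat_encode, Option.mem_def.1 hs]
    rfl

/-- `e` is an index of a reduction of `X` to `D`. -/
def Computes (e : ℕ) (D X : ℕ → Bool) : Prop :=
  ∀ z, (∃ k s, U e s (res D k) z = some (X z)) ∧ ∀ k s b, U e s (res D k) z = some b → b = X z

theorem eqb_cond (b : Bool) : eqb (cond b 1 0 : ℕ) 1 = b := by cases b <;> rfl

theorem TLe.exists_index {X D : ℕ → Bool} (h : TLe X D) : ∃ e, Computes e D X := by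
  obtain ⟨F, pF, sF, cF⟩ := use_principle (RecursiveIn.iff_nat.1 h)
  obtain ⟨e, he⟩ := exists_U pF
  refine ⟨e, fun z => ⟨?_, fun k s b hb => ?_⟩⟩
  · obtain ⟨k, hk⟩ := (cF z (cond (X z) 1 0) (by simp [chi])).exists
    obtain ⟨s, hs⟩ := (he _ _).2 _ hk
    exact ⟨k, s, by rw [hs, eqb_cond]⟩
  · obtain ⟨m, hm, rfl⟩ := (he _ _).1 _ _ hb
    have := sF _ _ _ hm
    simp only [chi, Part.mem_some_iff] at this
    rw [this, eqb_cond]

theorem exists_index_computable {g : ℕ → Bool} (hg : Computable g) :
    ∃ e, ∀ z, (∃ s, U e s [] z = some (g z)) ∧ ∀ s b, U e s [] z = some b → b = g z := by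
  have hF : Partrec₂ (fun (_ : List Bool) (z : ℕ) => (Part.some (cond (g z) 1 0) : Part ℕ)) :=
    Computable.cond (hg.comp Computable.snd) (Computable.const 1) (Computable.const 0)
  obtain ⟨e, he⟩ := exists_U hF
  refine ⟨e, fun z => ⟨?_, fun s b hb => ?_⟩⟩
  · obtain ⟨s, hs⟩ := (he [] z).2 (cond (g z) 1 0) (by simp)
    exact ⟨s, by rw [hs, eqb_cond]⟩
  · obtain ⟨m, hm, rfl⟩ := (he _ _).1 _ _ hb
    simp only [Part.mem_some_iff] at hm
    rw [hm, eqb_cond]

section criterion

variable {O : Set (ℕ →. ℕ)}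

theorem totIn_primrec {f : ℕ → ℕ} (hf : Primrec f) :
    Nat.RecursiveIn O (fun n => Part.some (f n)) :=
  Nat.Primrec.recursiveIn (Primrec.nat_iff.1 hf)

theorem totIn_comp {f g : ℕ → ℕ} (hf : Nat.RecursiveIn O (fun n => Part.some (f n)))
    (hg : Nat.RecursiveIn O (fun n => Part.some (g n))) :
    Nat.RecursiveIn O (fun n => Part.some (f (g n))) :=
  (hf.comp hg).of_eq fun n => by simp

theorem totIn_pair {f g : ℕ → ℕ} (hf : Nat.RecursiveIn O (fun n => Part.some (f n)))
    (hg : Nat.RecursiveIn O (fun n => Part.some (g n))) :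
    Nat.RecursiveIn O (fun n => Part.some (Nat.pair (f n) (g n))) :=
  (hf.pair hg).of_eq fun n => by simp [Seq.seq]

theorem totIn_res (D : ℕ → Bool) :
    Nat.RecursiveIn {chi D} (fun n => Part.some (encode (res D n.unpair.2))) := by
  have h0 : Nat.RecursiveIn {chi D} (fun n => Part.some (cond (D n) 1 0 : ℕ)) :=
    Nat.RecursiveIn.oracle (chi D) rfl
  have h1 : Nat.RecursiveIn {chi D} (fun n => Part.some
      (Nat.pair (cond (D n.unpair.2.unpair.1) 1 0) n.unpair.2.unpair.2)) :=
    totIn_pair (totIn_comp h0 (totIn_primrec (by fun_prop))) (totIn_primrec (by fun_prop))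
  have h2 := totIn_comp (totIn_primrec (O := {chi D}) (f := fun m => encode
    (((decode m.unpair.2 : Option (List Bool)).getD []) ++ [eqb m.unpair.1 1])) (by fun_prop)) h1
  have h3 := (totIn_primrec (O := {chi D}) (f := fun _ => encode ([] : List Bool))
    (by fun_prop)).prec h2
  refine h3.of_eq fun p => ?_
  simp only
  generalize p.unpair.1 = a
  generalize p.unpair.2 = n
  induction n with
  | zero => rfl
  | succ n ih =>
    simp only [Part.bind_eq_bind, Nat.unpair_pair, eqb_cond, res_succ] at ih ⊢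
    rw [ih]
    simp only [Part.bind_some, encodek, Option.getD_some]

/-- A primitive recursive procedure on initial segments of `D` that is always right and
eventually answers gives a Turing reduction. -/
theorem TLe.of_search {X D : ℕ → Bool} (G : List Bool → ℕ → Option Bool)
    (hG : Primrec (fun p : List Bool × ℕ => G p.1 p.2))
    (h : ∀ z, (∃ k, (G (res D k) z).isSome) ∧ ∀ k b, G (res D k) z = some b → b = X z) :
    TLe X D := by
  have h1 : Nat.RecursiveIn {chi D} (fun n => Part.some
      (Nat.pair n.unpair.1 (encode (res D n.unpair.2)))) :=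
    totIn_pair (totIn_primrec (by fun_prop)) (totIn_res D)
  have h2 := totIn_comp (totIn_primrec (O := {chi D}) (f := fun m =>
    cond (G ((decode m.unpair.2 : Option (List Bool)).getD []) m.unpair.1).isSome 0 1)
    (by fun_prop)) h1
  have h3 := totIn_comp (totIn_primrec (O := {chi D}) (f := fun m =>
    cond ((G ((decode m.unpair.2 : Option (List Bool)).getD []) m.unpair.1).getD false) 1 0)
    (by fun_prop)) h1
  have h4 := h3.comp ((totIn_primrec (O := {chi D}) (f := fun n => n) (by fun_prop)).pair h2.rfind)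
  refine RecursiveIn.iff_nat.2 (h4.of_eq fun z => ?_)
  obtain ⟨⟨k, hk⟩, hz⟩ := h z
  obtain ⟨n, hn, -⟩ := Nat.rfind_min' (p := fun k => (G (res D k) z).isSome) hk
  have e : (Nat.rfind fun n => (fun m => decide (m = 0)) <$> Part.some
      (cond (G ((decode (Nat.pair (Nat.pair z n).unpair.1
        (encode (res D (Nat.pair z n).unpair.2))).unpair.2 : Option (List Bool)).getD [])
        (Nat.pair (Nat.pair z n).unpair.1
        (encode (res D (Nat.pair z n).unpair.2))).unpair.1).isSome 0 1 : ℕ)) = Part.some n := by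
    rw [← Part.eq_some_iff.2 hn]
    congr 1
    funext m
    simp only [Nat.unpair_pair, encodek, Option.getD_some, Part.map_eq_map, Part.map_some,
      PFun.coe_val]
    cases (G (res D m) z).isSome <;> rfl
  rw [e]
  have hs := Nat.rfind_spec hn
  simp only [PFun.coe_val, Part.mem_some_iff] at hs
  obtain ⟨b, hb⟩ := Option.isSome_iff_exists.1 hs.symm
  simp [Seq.seq, chi, hb, hz n b hb]

end criterion

end Pool.Agent.Lib.Comp
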