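import Mathlib

/-!
`fun_prop` support for `Primrec`.
-/

namespace Pool.Agent.Lib.Comp

attribute [fun_prop] Primrec

variable {α β γ σ : Type*} [Primcodable α] [Primcodable β] [Primcodable γ] [Primcodable σ]

@[fun_prop] theorem pr_id : Primrec (fun x : α => x) := Primrec.id

@[fun_prop] theorem pr_const (b : β) : Primrec (fun _ : α => b) := Primrec.const b

@[fun_prop] theorem pr_comp {f : β → γ} {g : α → β} (hf : Primrec f) (hg : Primrec g) :
    Primrec (fun x => f (g x)) := hf.comp hg

@[fun_prop] theorem pr_pair {f : α → β} {g : α → γ} (hf : Primrec f) (hg : Primrec g) :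
    Primrec (fun x => (f x, g x)) := hf.pair hg

@[fun_prop] theorem pr_fst {f : α → β × γ} (hf : Primrec f) : Primrec (fun x => (f x).1) :=
  Primrec.fst.comp hf

@[fun_prop] theorem pr_snd {f : α → β × γ} (hf : Primrec f) : Primrec (fun x => (f x).2) :=
  Primrec.snd.comp hf

@[fun_prop] theorem pr_add {f g : α → ℕ} (hf : Primrec f) (hg : Primrec g) :
    Primrec (fun x => f x + g x) := Primrec.nat_add.comp hf hg

@[fun_prop] theorem pr_sub {f g : α → ℕ} (hf : Primrec f) (hg : Primrec g) :
    Primrec (fun x => f x - g x) := Primrec.nat_sub.comp hf hg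

@[fun_prop] theorem pr_mul {f g : α → ℕ} (hf : Primrec f) (hg : Primrec g) :
    Primrec (fun x => f x * g x) := Primrec.nat_mul.comp hf hg

@[fun_prop] theorem pr_div {f g : α → ℕ} (hf : Primrec f) (hg : Primrec g) :
    Primrec (fun x => f x / g x) := Primrec.nat_div.comp hf hg

@[fun_prop] theorem pr_mod {f g : α → ℕ} (hf : Primrec f) (hg : Primrec g) :
    Primrec (fun x => f x % g x) := Primrec.nat_mod.comp hf hg

@[fun_prop] theorem pr_max {f g : α → ℕ} (hf : Primrec f) (hg : Primrec g) :
    Primrec (fun x => max (f x) (g x)) := Primrec.nat_max.comp hf hg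

@[fun_prop] theorem pr_min {f g : α → ℕ} (hf : Primrec f) (hg : Primrec g) :
    Primrec (fun x => min (f x) (g x)) := Primrec.nat_min.comp hf hg

@[fun_prop] theorem pr_succ {f : α → ℕ} (hf : Primrec f) : Primrec (fun x => (f x).succ) :=
  Primrec.succ.comp hf

@[fun_prop] theorem pr_natPair {f g : α → ℕ} (hf : Primrec f) (hg : Primrec g) :
    Primrec (fun x => Nat.pair (f x) (g x)) := Primrec₂.natPair.comp hf hg

@[fun_prop] theorem pr_unpair {f : α → ℕ} (hf : Primrec f) :
    Primrec (fun x => Nat.unpair (f x)) := Primrec.unpair.comp hf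

@[fun_prop] theorem pr_bodd {f : α → ℕ} (hf : Primrec f) :
    Primrec (fun x => Nat.bodd (f x)) := Primrec.nat_bodd.comp hf

@[fun_prop] theorem pr_div2 {f : α → ℕ} (hf : Primrec f) :
    Primrec (fun x => Nat.div2 (f x)) := Primrec.nat_div2.comp hf

@[fun_prop] theorem pr_encode {f : α → β} (hf : Primrec f) :
    Primrec (fun x => Encodable.encode (f x)) := Primrec.encode.comp hf

@[fun_prop] theorem pr_decode {f : α → ℕ} (hf : Primrec f) :
    Primrec (fun x => (Encodable.decode (f x) : Option β)) := Primrec.decode.comp hf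

@[fun_prop] theorem pr_ofNat {δ : Type*} [Denumerable δ] {f : α → ℕ} (hf : Primrec f) :
    Primrec (fun x => Denumerable.ofNat δ (f x)) := (Primrec.ofNat δ).comp hf

@[fun_prop] theorem pr_not {f : α → Bool} (hf : Primrec f) : Primrec (fun x => !f x) :=
  Primrec.not.comp hf

@[fun_prop] theorem pr_and {f g : α → Bool} (hf : Primrec f) (hg : Primrec g) :
    Primrec (fun x => f x && g x) := Primrec.and.comp hf hg

@[fun_prop] theorem pr_or {f g : α → Bool} (hf : Primrec f) (hg : Primrec g) :
    Primrec (fun x => f x || g x) := Primrec.or.comp hf hg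

@[fun_prop] theorem pr_cond {c : α → Bool} {f g : α → σ} (hc : Primrec c) (hf : Primrec f)
    (hg : Primrec g) : Primrec (fun x => cond (c x) (f x) (g x)) := Primrec.cond hc hf hg

/-- Boolean equality test. -/
def eqb {δ : Type*} [DecidableEq δ] (a b : δ) : Bool := decide (a = b)

/-- Boolean test `a < b`. -/
def ltb (a b : ℕ) : Bool := decide (a < b)

/-- Boolean test `a ≤ b`. -/
def leb (a b : ℕ) : Bool := decide (a ≤ b)

@[simp] theorem eqb_true {δ : Type*} [DecidableEq δ] {a b : δ} : eqb a b = true ↔ a = b := by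
  simp [eqb]

@[simp] theorem eqb_false {δ : Type*} [DecidableEq δ] {a b : δ} : eqb a b = false ↔ a ≠ b := by
  simp [eqb]

@[simp] theorem ltb_true {a b : ℕ} : ltb a b = true ↔ a < b := by simp [ltb]

@[simp] theorem ltb_false {a b : ℕ} : ltb a b = false ↔ b ≤ a := by simp [ltb]

@[simp] theorem leb_true {a b : ℕ} : leb a b = true ↔ a ≤ b := by simp [leb]

@[simp] theorem leb_false {a b : ℕ} : leb a b = false ↔ b < a := by simp [leb]

@[fun_prop] theorem pr_eqb [DecidableEq β] {f g : α → β} (hf : Primrec f) (hg : Primrec g) :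
    Primrec (fun x => eqb (f x) (g x)) := (Primrec.eq.comp hf hg).decide

@[fun_prop] theorem pr_ltb {f g : α → ℕ} (hf : Primrec f) (hg : Primrec g) :
    Primrec (fun x => ltb (f x) (g x)) := (Primrec.nat_lt.comp hf hg).decide

@[fun_prop] theorem pr_leb {f g : α → ℕ} (hf : Primrec f) (hg : Primrec g) :
    Primrec (fun x => leb (f x) (g x)) := (Primrec.nat_le.comp hf hg).decide

@[fun_prop] theorem pr_some {f : α → β} (hf : Primrec f) : Primrec (fun x => some (f x)) :=
  Primrec.option_some.comp hf

@[fun_prop] theorem pr_isSome {f : α → Option β} (hf : Primrec f) :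
    Primrec (fun x => (f x).isSome) := Primrec.option_isSome.comp hf

@[fun_prop] theorem pr_optGetD {f : α → Option β} {g : α → β} (hf : Primrec f) (hg : Primrec g) :
    Primrec (fun x => (f x).getD (g x)) := Primrec.option_getD.comp hf hg

@[fun_prop] theorem pr_optBind {f : α → Option β} {g : α → β → Option σ} (hf : Primrec f)
    (hg : Primrec (fun p : α × β => g p.1 p.2)) : Primrec (fun x => (f x).bind (g x)) :=
  Primrec.option_bind hf hg

@[fun_prop] theorem pr_optMap {f : α → Option β} {g : α → β → σ} (hf : Primrec f)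
    (hg : Primrec (fun p : α × β => g p.1 p.2)) : Primrec (fun x => (f x).map (g x)) :=
  Primrec.option_map hf hg

@[fun_prop] theorem pr_optElim {f : α → Option β} {d : α → σ} {g : α → β → σ} (hf : Primrec f)
    (hd : Primrec d) (hg : Primrec (fun p : α × β => g p.1 p.2)) :
    Primrec (fun x => (f x).elim (d x) (g x)) :=
  (Primrec.option_casesOn hf hd hg).of_eq fun x => by cases f x <;> rfl

@[fun_prop] theorem pr_cons {f : α → β} {g : α → List β} (hf : Primrec f) (hg : Primrec g) :
    Primrec (fun x => f x :: g x) := Primrec.list_cons.comp hf hg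

@[fun_prop] theorem pr_append {f g : α → List β} (hf : Primrec f) (hg : Primrec g) :
    Primrec (fun x => f x ++ g x) := Primrec.list_append.comp hf hg

@[fun_prop] theorem pr_length {f : α → List β} (hf : Primrec f) :
    Primrec (fun x => (f x).length) := Primrec.list_length.comp hf

@[fun_prop] theorem pr_range {f : α → ℕ} (hf : Primrec f) :
    Primrec (fun x => List.range (f x)) := Primrec.list_range.comp hf

@[fun_prop] theorem pr_getElem? {f : α → List β} {g : α → ℕ} (hf : Primrec f) (hg : Primrec g) :
    Primrec (fun x => (f x)[g x]?) := Primrec.list_getElem?.comp hf hg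

@[fun_prop] theorem pr_getD {f : α → List β} {g : α → ℕ} {d : α → β} (hf : Primrec f)
    (hg : Primrec g) (hd : Primrec d) : Primrec (fun x => (f x).getD (g x) (d x)) :=
  (pr_optGetD (pr_getElem? hf hg) hd).of_eq fun x => by simp [List.getD_eq_getElem?_getD]

@[fun_prop] theorem pr_take {f : α → ℕ} {g : α → List β} (hf : Primrec f) (hg : Primrec g) :
    Primrec (fun x => (g x).take (f x)) := Primrec.list_take.comp hf hg

@[fun_prop] theorem pr_drop {f : α → ℕ} {g : α → List β} (hf : Primrec f) (hg : Primrec g) :
    Primrec (fun x => (g x).drop (f x)) := Primrec.list_drop.comp hf hg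

@[fun_prop] theorem pr_map {f : α → List β} {g : α → β → σ} (hf : Primrec f)
    (hg : Primrec (fun p : α × β => g p.1 p.2)) : Primrec (fun x => (f x).map (g x)) :=
  Primrec.list_map hf hg

@[fun_prop] theorem pr_foldr {f : α → List β} {d : α → σ} {g : α → β → σ → σ} (hf : Primrec f)
    (hd : Primrec d) (hg : Primrec (fun p : α × β × σ => g p.1 p.2.1 p.2.2)) :
    Primrec (fun x => (f x).foldr (g x) (d x)) :=
  Primrec.list_foldr (h := fun a p => g a p.1 p.2) hf hd hg

@[fun_prop] theorem pr_foldl {f : α → List β} {d : α → σ} {g : α → σ → β → σ} (hf : Primrec f)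
    (hd : Primrec d) (hg : Primrec (fun p : α × σ × β => g p.1 p.2.1 p.2.2)) :
    Primrec (fun x => (f x).foldl (g x) (d x)) :=
  Primrec.list_foldl (h := fun a p => g a p.1 p.2) hf hd hg

@[fun_prop] theorem pr_any {f : α → List β} {g : α → β → Bool} (hf : Primrec f)
    (hg : Primrec (fun p : α × β => g p.1 p.2)) : Primrec (fun x => (f x).any (g x)) := by
  have h : Primrec (fun x => (f x).foldr (fun b r => g x b || r) false) := by fun_prop
  refine h.of_eq fun x => ?_
  induction f x with
  | nil => rfl
  | cons b l ih => simp [List.any_cons, ← ih]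

@[fun_prop] theorem pr_all {f : α → List β} {g : α → β → Bool} (hf : Primrec f)
    (hg : Primrec (fun p : α × β => g p.1 p.2)) : Primrec (fun x => (f x).all (g x)) := by
  have h : Primrec (fun x => (f x).foldr (fun b r => g x b && r) true) := by fun_prop
  refine h.of_eq fun x => ?_
  induction f x with
  | nil => rfl
  | cons b l ih => simp [List.all_cons, ← ih]

@[fun_prop] theorem pr_findSome? {f : α → List β} {g : α → β → Option σ} (hf : Primrec f)
    (hg : Primrec (fun p : α × β => g p.1 p.2)) : Primrec (fun x => (f x).findSome? (g x)) := by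
  have h : Primrec (fun x => (f x).foldr (fun b r => (g x b).elim r some) none) := by fun_prop
  refine h.of_eq fun x => ?_
  induction f x with
  | nil => rfl
  | cons b l ih =>
    rw [List.foldr_cons, ih, List.findSome?_cons]
    cases g x b <;> rfl

@[fun_prop] theorem pr_find? {f : α → List β} {g : α → β → Bool} (hf : Primrec f)
    (hg : Primrec (fun p : α × β => g p.1 p.2)) : Primrec (fun x => (f x).find? (g x)) := by
  have h : Primrec (fun x => (f x).foldr (fun b r => cond (g x b) (some b) r) none) := by fun_prop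
  refine h.of_eq fun x => ?_
  induction f x with
  | nil => rfl
  | cons b l ih =>
    rw [List.foldr_cons, ih, List.find?_cons]
    cases g x b <;> rfl

@[fun_prop] theorem pr_natRec {f : α → ℕ} {d : α → σ} {g : α → ℕ → σ → σ} (hf : Primrec f)
    (hd : Primrec d) (hg : Primrec (fun p : α × ℕ × σ => g p.1 p.2.1 p.2.2)) :
    Primrec (fun x => (Nat.rec (motive := fun _ => σ) (d x) (g x) (f x) : σ)) :=
  Primrec.nat_rec' (h := fun a p => g a p.1 p.2) hf hd hg

@[fun_prop] theorem pr_evaln {k : α → ℕ} {c : α → Nat.Partrec.Code} {n : α → ℕ}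
    (hk : Primrec k) (hc : Primrec c) (hn : Primrec n) :
    Primrec (fun x => Nat.Partrec.Code.evaln (k x) (c x) (n x)) :=
  Nat.Partrec.Code.primrec_evaln.comp ((hk.pair hc).pair hn)

example : Primrec (fun p : ℕ × List (List Bool) × ℕ =>
    (List.range p.1).any fun s => (List.range s).all fun y =>
      eqb ((p.2.1.getD s []).getD y false) ((p.2.1.getD p.2.2 []).getD y false)) := by
  fun_prop

end Pool.Agent.Lib.Comp
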